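import Pool.Agent.H24.ID.Final
import Pool.Agent.H24.ID.Levy

set_option autoImplicit false
open scoped Pointwise

namespace Pool.Agent.Results.MP_dd2a7c_co.InfinitelyDivisible

/-- An infinitely divisible positive definite function on an abelian group: a strictly positive
even function `f` with `f 0 = 1` all of whose powers `f ^ t`, `t > 0`, are positive definite. -/
def InfDiv {Γ : Type*} [AddCommGroup Γ] [Fintype Γ] (f : Γ → ℝ) : Prop :=
  f 0 = 1 ∧ (∀ x, 0 < f x) ∧ (∀ x, f (-x) = f x) ∧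
    ∀ t : ℝ, 0 < t → ∀ c : Γ → ℝ, 0 ≤ ∑ x, ∑ y, c x * c y * f (x - y) ^ t

/-- The polynomial Freiman-Ruzsa conjecture holds for every set that correlates, up to factors
`K`, with an infinitely divisible positive definite function of comparable total mass. -/
theorem result : ∃ C : ℝ, 0 < C ∧
    ∀ (Γ : Type*) [AddCommGroup Γ] [Fintype Γ] [DecidableEq Γ] (f : Γ → ℝ), InfDiv f →
    ∀ (K : ℝ), 1 ≤ K → ∀ (A : Finset Γ), A.Nonempty → ((A + A).card : ℝ) ≤ K * A.card →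
    ∑ x, f x ≤ K * A.card →
    (A.card : ℝ) ^ 2 ≤ K * ∑ a ∈ A, ∑ b ∈ A, f (a - b) →
    ∃ (d : ℕ) (B : Set (Fin d → ℝ)) (ψ : (Fin d → ℤ) →+ Γ) (H : AddSubgroup Γ) (T : Finset Γ),
      (d : ℝ) ≤ C * Real.log (2 * K) ∧
      Convex ℝ B ∧ IsCompact B ∧ (interior B).Nonempty ∧ (∀ x ∈ B, -x ∈ B) ∧
      {x : Fin d → ℤ | (fun i => (x i : ℝ)) ∈ B}.ncard * Nat.card H ≤ A.card ∧
      (T.card : ℝ) ≤ C * K ^ C ∧
      ∀ a ∈ A, ∃ t ∈ T, ∃ x : Fin d → ℤ, (fun i => (x i : ℝ)) ∈ B ∧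
        ∃ h ∈ H, a = t + ψ x + h := by
  obtain ⟨E, hE⟩ := H24.ID.core
  refine ⟨4 ^ E + 2 * E, by positivity, ?_⟩
  intro Γ _ _ _ f hf K hK A hA hAA hsum hcor
  obtain ⟨h0, hpos, hs, hpd⟩ := hf
  obtain ⟨w, hw, hlog⟩ := H24.ID.levy f h0 hpos hs hpd
  choose χ hχ using fun ψ : AddChar Γ ℂ => H24.ID.exists_toAC ψ
  have hq : ∀ x, ∑ ψ : AddChar Γ ℂ, w ψ * H24.ID.u1 (χ ψ x) = -Real.log (f x) := by
    intro x
    rw [hlog, neg_neg]
    refine Finset.sum_congr rfl fun ψ _ => ?_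
    rw [H24.ID.u1_char, hχ]
  have hle : ∀ x, f x ≤ 1 := by
    intro x
    have h1 : Real.log (f x) ≤ 0 := by
      rw [← neg_nonneg, ← hq]
      exact Finset.sum_nonneg fun ψ _ => mul_nonneg (hw ψ) (H24.ID.u1_nonneg _)
    exact (Real.log_nonpos_iff (hpos x).le).1 h1
  have hAc : (0 : ℝ) < A.card := by exact_mod_cast hA.card_pos
  -- a good centre
  obtain ⟨a₀, -, ha₀⟩ : ∃ b ∈ A, (A.card : ℝ) ≤ K * ∑ a ∈ A, f (a - b) := by
    by_contra hcon
    push Not at hcon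
    have h1 := Finset.sum_lt_sum_of_nonempty hA hcon
    rw [Finset.sum_const, nsmul_eq_mul, ← Finset.mul_sum, Finset.sum_comm] at h1
    rw [sq] at hcor
    linarith
  have hgood : (A.card : ℝ) ≤ (2 * K) *
      (A.filter fun a => (2 * (2 * K))⁻¹ ≤ f (a - a₀)).card := by
    have h1 : ∑ a ∈ A, f (a - a₀) ≤
        (A.filter fun a => (2 * (2 * K))⁻¹ ≤ f (a - a₀)).card + (2 * (2 * K))⁻¹ * A.card := by
      have h2 : ∀ a ∈ A, f (a - a₀) ≤
          (if (2 * (2 * K))⁻¹ ≤ f (a - a₀) then (1 : ℝ) else 0) + (2 * (2 * K))⁻¹ := by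
        intro a _
        have h3 : 0 < (2 * (2 * K))⁻¹ := by positivity
        split_ifs with h
        · linarith [hle (a - a₀)]
        · linarith [not_le.1 h]
      refine (Finset.sum_le_sum h2).trans (le_of_eq ?_)
      rw [Finset.sum_add_distrib, Finset.sum_boole, Finset.sum_const, nsmul_eq_mul]
      ring
    have h2 : (A.card : ℝ) ≤ K * ((A.filter fun a => (2 * (2 * K))⁻¹ ≤ f (a - a₀)).card +
        (2 * (2 * K))⁻¹ * A.card) := ha₀.trans (mul_le_mul_of_nonneg_left h1 (by linarith))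
    have h3 : K * ((2 * (2 * K))⁻¹ * A.card) = A.card / 4 := by
      have : K ≠ 0 := by linarith
      field_simp
      ring
    rw [mul_add, h3] at h2
    have h4 : 0 ≤ K * ((A.filter fun a => (2 * (2 * K))⁻¹ ≤ f (a - a₀)).card : ℝ) := by
      positivity
    linarith
  have hset : (A.filter fun a => ∑ ψ : AddChar Γ ℂ, w ψ * H24.ID.u1 (χ ψ (a - a₀)) ≤
      Real.log (2 * (2 * K))) = A.filter fun a => (2 * (2 * K))⁻¹ ≤ f (a - a₀) := by
    refine Finset.filter_congr fun a _ => ?_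
    rw [hq, neg_le, ← Real.log_inv, Real.log_le_log_iff (by positivity) (hpos _)]
  obtain ⟨m, B, φ, H, T, h1, h2, h3, h4, h5, -, h6, h7, h8⟩ :=
    hE Γ (AddChar Γ ℂ) χ w hw (2 * K) (by linarith) A hA (by nlinarith) a₀
      (by rw [hset]; exact hgood) (by
      refine le_trans (le_of_eq ?_) (hsum.trans (by nlinarith))
      refine Finset.sum_congr rfl fun x _ => ?_
      rw [hq, neg_neg, Real.exp_log (hpos x)])
  refine ⟨m, B, φ, H, T, ?_, h2, h3, h4, h5, h6, ?_, h8⟩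
  · have hl : 0 ≤ Real.log (2 * K) := Real.log_nonneg (by linarith)
    have hl2 : Real.log (2 * (2 * K)) ≤ 2 * Real.log (2 * K) := by
      rw [← Real.log_rpow (by positivity)]
      refine Real.log_le_log (by positivity) ?_
      norm_num
      nlinarith
    calc (m : ℝ) ≤ E * Real.log (2 * (2 * K)) := h1
      _ ≤ E * (2 * Real.log (2 * K)) := by gcongr
      _ = 2 * E * Real.log (2 * K) := by ring
      _ ≤ (4 ^ E + 2 * E) * Real.log (2 * K) := by
        refine mul_le_mul_of_nonneg_right ?_ hl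
        linarith [pow_pos (show (0 : ℝ) < 4 by norm_num) E]
  · calc (T.card : ℝ) ≤ (2 * (2 * K)) ^ E := h7
      _ = 4 ^ E * K ^ (E : ℝ) := by
        rw [Real.rpow_natCast, ← mul_pow]
        ring
      _ ≤ (4 ^ E + 2 * E) * K ^ (4 ^ E + 2 * E : ℝ) := by
        have e1 : (E : ℝ) ≤ 4 ^ E + 2 * E := by
          have := pow_pos (show (0 : ℝ) < 4 by norm_num) E
          have := Nat.cast_nonneg (α := ℝ) E
          linarith
        have e2 : K ^ (E : ℝ) ≤ K ^ (4 ^ E + 2 * E : ℝ) :=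
          Real.rpow_le_rpow_of_exponent_le hK e1
        have e3 : (0 : ℝ) ≤ K ^ (E : ℝ) := Real.rpow_nonneg (by linarith) _
        have e4 : (4 : ℝ) ^ E ≤ 4 ^ E + 2 * E := by linarith [Nat.cast_nonneg (α := ℝ) E]
        exact mul_le_mul e4 e2 e3 (by positivity)

end Pool.Agent.Results.MP_dd2a7c_co.InfinitelyDivisible
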