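import Pool.Agent.H24.LW.Core2
import Pool.Agent.H24.LW.Law

set_option autoImplicit false
open scoped Pointwise

namespace Pool.Agent.Results.MP_dd2a7c_co.InfinitelyDivisibleLaws

open Classical in
/-- The law of the sum of `n` independent random elements with law `ρ`. -/
noncomputable def sumLaw {Γ : Type*} [AddCommGroup Γ] [Fintype Γ] (n : ℕ) (ρ : Γ → ℝ) (x : Γ) : ℝ :=
  ∑ v : Fin n → Γ, if ∑ i, v i = x then ∏ i, ρ (v i) else 0

/-- Infinitely divisible probability laws: for every `n` the law of a sum of `n` independent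
identically distributed random elements of the group. -/
def InfDiv {Γ : Type*} [AddCommGroup Γ] [Fintype Γ] (ν : Γ → ℝ) : Prop :=
  (∀ x, 0 ≤ ν x) ∧ ∑ x, ν x = 1 ∧
    ∀ n : ℕ, 1 ≤ n → ∃ ρ : Γ → ℝ, (∀ x, 0 ≤ ρ x) ∧ ∑ x, ρ x = 1 ∧ ν = sumLaw n ρ

/-- The polynomial Freiman-Ruzsa conjecture holds for every set `A` with a translate of mass at
least `1 / K` for an infinitely divisible law of collision probability at most `K / |A|`. -/
theorem result : ∃ C : ℝ, 0 < C ∧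
    ∀ (Γ : Type*) [AddCommGroup Γ] [Fintype Γ] [DecidableEq Γ] (ν : Γ → ℝ), InfDiv ν →
    ∀ (K : ℝ), 1 ≤ K → ∀ (A : Finset Γ), A.Nonempty → ((A + A).card : ℝ) ≤ K * A.card →
    (A.card : ℝ) * ∑ x, ν x ^ 2 ≤ K →
    (∃ g, 1 ≤ K * ∑ a ∈ A, ν (g + a)) →
    ∃ (d : ℕ) (B : Set (Fin d → ℝ)) (ψ : (Fin d → ℤ) →+ Γ) (H : AddSubgroup Γ) (T : Finset Γ),
      (d : ℝ) ≤ C * Real.log (2 * K) ∧
      Convex ℝ B ∧ IsCompact B ∧ (interior B).Nonempty ∧ (∀ x ∈ B, -x ∈ B) ∧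
      {x : Fin d → ℤ | (fun i => (x i : ℝ)) ∈ B}.ncard * Nat.card H ≤ A.card ∧
      (T.card : ℝ) ≤ C * K ^ C ∧
      ∀ a ∈ A, ∃ t ∈ T, ∃ x : Fin d → ℤ, (fun i => (x i : ℝ)) ∈ B ∧
        ∃ h ∈ H, a = t + ψ x + h := by
  obtain ⟨N, hN⟩ := H24.LW.core2
  obtain ⟨C, hC⟩ := Pool.Agent.H608VF.concl_of_weak ((2 : ℝ) ^ N + N)
  refine ⟨4 * max C 1, by positivity, ?_⟩
  intro Γ _ _ _ ν hν K hK A hA hAA hat hg
  obtain ⟨g, hg⟩ := hg
  have hν' : H24.LW.InfDiv ν := ⟨hν.1, hν.2.1, fun n => by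
    obtain ⟨ρ, h1, h2, h3⟩ := hν.2.2 (n + 1) (by omega)
    refine ⟨ρ, h1, h2, ?_⟩
    rw [h3]
    rfl⟩
  have hK0 : 0 < K := by linarith
  have hK4 : K ≤ K ^ 4 := le_self_pow₀ hK (by norm_num)
  have hK41 : 1 ≤ K ^ 4 := one_le_pow₀ hK
  have hAc : (0 : ℝ) ≤ A.card := Nat.cast_nonneg _
  have hAA4 : ((A + A).card : ℝ) ≤ K ^ 4 * A.card :=
    hAA.trans (mul_le_mul_of_nonneg_right hK4 hAc)
  have hft : ∀ γ, 0 ≤ H24.LW.ft (H24.LW.sy ν) γ := by
    intro γ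
    rw [H24.LW.ft_sy]
    positivity
  have htot : ∑ x, H24.LW.sy ν x = 1 := by
    rw [H24.LW.sy_total, hν.2.1, one_pow]
  obtain ⟨ι, hι, χ, w, hw, hrep, hexp⟩ := H24.ID.repr2 (H24.LW.ft (H24.LW.sy ν)) hft
    (by rw [H24.LW.ft_zero, htot]) (fun γ => H24.LW.ft_neg _ (H24.LW.sy_neg ν) γ)
    (fun n c => hν'.pd n c)
  obtain ⟨d, B, ψ, H, T, hd, ⟨hB1, hB2, hB3, hB4⟩, -, hvol, hT, hcov⟩ :=
    hC Γ (K ^ 4) A hA hAA4 (hN Γ (H24.LW.sy ν) (H24.LW.sy_neg ν) (H24.LW.sy_nonneg hν.1) htot hft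
      ι χ w hw hrep hexp (K ^ 4) hK41 A hA hAA4 (by
        rw [H24.LW.sy_zero]
        exact hat.trans hK4) (H24.LW.corr_of_mass hν.1 hK hA hAA hg))
  have hm : 1 ≤ max C 1 := le_max_right _ _
  have hm0 : 0 < max C 1 := by linarith
  have hlog : Real.log (2 * K ^ 4) ≤ 4 * Real.log (2 * K) := by
    have h1 : 4 * Real.log (2 * K) = Real.log ((2 * K) ^ 4) := by
      rw [Real.log_pow]
      push_cast
      ring
    rw [h1]
    refine Real.log_le_log (by positivity) ?_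
    nlinarith
  refine ⟨d, B, ψ, H, T, ?_, hB1, hB2, hB3, hB4, hvol, ?_, ?_⟩
  · calc (d : ℝ) ≤ C * Real.log (2 * K ^ 4) := hd
      _ ≤ max C 1 * Real.log (2 * K ^ 4) :=
          mul_le_mul_of_nonneg_right (le_max_left _ _) (Real.log_nonneg (by linarith))
      _ ≤ max C 1 * (4 * Real.log (2 * K)) := mul_le_mul_of_nonneg_left hlog hm0.le
      _ = 4 * max C 1 * Real.log (2 * K) := by ring
  · calc (T.card : ℝ) ≤ C * (K ^ 4) ^ C := hT
      _ ≤ (4 * max C 1) * (K ^ 4) ^ (max C 1) := by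
          refine mul_le_mul ?_ (Real.rpow_le_rpow_of_exponent_le hK41 (le_max_left _ _))
            (by positivity) (by positivity)
          have := le_max_left C 1
          linarith
      _ = 4 * max C 1 * K ^ (4 * max C 1) := by
          congr 1
          rw [Real.rpow_mul hK0.le]
          congr 1
          exact (Real.rpow_natCast K 4).symm
  · intro a ha
    obtain ⟨t, ht, x, hx, h, hh, e⟩ := hcov a ha
    exact ⟨t, ht, x, hx, h, hh, e⟩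

end Pool.Agent.Results.MP_dd2a7c_co.InfinitelyDivisibleLaws
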