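import Pool.Agent.H28.FB.E
import Pool.Agent.H28.FB.G

/-!
# MP_dd2a7c_co: the conclusion of Q1 is invariant under isogenies of bounded exponent; fibres decide

Notation (`Pool.Agent.Y806.DF`, `Pool.Agent.R92.Star` and `Pool.Agent.H608VF`, starting library):
`Concl C K A` is the conclusion of Q1 for the set `A`, with the constant `C` and the doubling `K`: `A` is
covered by `C K ^ C` translates of a centred convex coset progression of dimension at most
`C log (2 K)` and volume at most `|A|`. `Weak C K A` says: `A` is covered by `C K ^ C` translates of a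
set `ψ(X) + H` with at most `C K ^ C |A|` elements, where `H` is a finite subgroup, `ψ` a homomorphism on
`ℤ ^ d`, `d` arbitrary, and `X` a finite subset of `ℤ ^ d` with doubling at most `C K ^ C` and density
at least `1 / (C K ^ C)` in its convex hull.

**Theorem.** (1) Let `f : Γ → Γ'`, `g : Γ' → Γ` be homomorphisms of abelian groups with `g (f x) = m x`
for all `x`. Let `A ⊆ Γ` be a finite set with `|A + A| ≤ K |A|`, and `B ⊆ Γ'` a finite set such that
`f(a)` lies in the union of `C K ^ C` translates of `B - B` for at least `|A| / (C K ^ C)` elements `a` of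
`A`, and `g(B)` is covered by `C K ^ C` translates of `A - A`. If `B` satisfies the conclusion of Q1,
then so does `A`, with a constant which depends only on `C` and `m`.

(2) Let `N` be any subgroup of `Γ`, `A ⊆ Γ` a finite set with `|A + A| ≤ K |A|`, which meets `n` cosets of
`N`, and let `F ⊆ N` be a set with at least `|A| / (C K ^ C n)` elements with `x₀ + F ⊆ A` (for example
the fibre of `A` with the largest number of elements, `C = 1`).
(a) If `A` satisfies the conclusion of Q1, then so does `F`, inside the group `N`.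
(b) Suppose that there is a coset `t + N` such that `m a ∈ t + N` for at least `|A| / (C K ^ C)` elements `a`
of `A` (for example that `m Γ ⊆ N`). If `F` satisfies the conclusion of Q1 in `N`, or `Weak C K F`, then `A`
satisfies the conclusion of Q1.

Nothing is assumed about the number of the cosets or about the other fibres in (2). The case of `F` with
`Weak C K F` is unconditional: it contains the sets `F` which consist of all integer points of a convex
set of any dimension in a subgroup `N` isomorphic to `ℤ ^ d`, and the images `ψ(X)` of such sets `X`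
under homomorphisms `ψ` if `|X + X| ≤ C K ^ C |X|`. (1) contains the theorem on kernels of exponent `m` (starting library, hand-in
`BoundedTorsionExtensions`, `B = f(A)`), the dilates `B = m A`, and the case of cokernels of exponent
`m`, for which (2) says that the fibres are commensurable with `m A`.

The main point of the proof: let `B ⊆ Γ` be in few translates of `A - A`, `m A` in few translates of
`B - B`, and `B` in few translates of `P = ψ(ℤ^d ∩ Q) + H`. The set `m A` can be much smaller than `B` and
`P`. Modulo `H`, the set `S = m ((A₂ - A₂) + (B₀ - B₀))`, for popular parts `A₂`, `B₀` of `A`, `B`, is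
contained in the image of `Q`, and the full preimage `X` of `S` in a multiple of `Q` contains a
translate of `m Z` for a dense part `Z` of `Q`, so that it is dense in its convex hull; its doubling
is small, since it has the same number of points over all points of `S`, up to `K ^ O(1)`, although this
number is not bounded. So `m A` satisfies the conclusion of Q1 modulo `H` (inside `m (Γ / H)`), by the
theorem on homomorphic images, then `A` modulo `H` by the theorem on extensions.
-/

set_option autoImplicit false

namespace Pool.Agent.Results.MP_dd2a7c_co.IsogenyInvariance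

open Finset
open scoped Pointwise
open Pool.Agent.Y806.DF Pool.Agent.R92.Star Pool.Agent.H608VF Pool.Agent.H28.FB

universe u v

/-- **The conclusion of Q1 is invariant under isogenies of bounded exponent, and is decided by the
fibres over the subgroups of bounded coexponent.** -/
theorem result :
    -- (1) isogenies of bounded exponent
    (∀ (C : ℝ) (m : ℕ), 0 < m → ∃ C' : ℝ, ∀ (Γ : Type u) (Γ' : Type v) [AddCommGroup Γ]
      [DecidableEq Γ] [AddCommGroup Γ'] [DecidableEq Γ'] (f : Γ →+ Γ') (g : Γ' →+ Γ),
      (∀ x, g (f x) = m • x) → ∀ (K : ℝ) (A A' T₂ : Finset Γ) (B T₁ : Finset Γ'),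
      A.Nonempty → ((A + A).card : ℝ) ≤ K * A.card →
      A' ⊆ A → (A.card : ℝ) ≤ C * K ^ C * A'.card →
      (T₁.card : ℝ) ≤ C * K ^ C → (∀ a ∈ A', ∃ x ∈ T₁, ∃ y ∈ B, ∃ z ∈ B, f a = x + (y - z)) →
      (T₂.card : ℝ) ≤ C * K ^ C → (∀ b ∈ B, ∃ x ∈ T₂, ∃ y ∈ A, ∃ z ∈ A, g b = x + (y - z)) →
      Concl C K B → Concl C' K A) ∧
    -- (2) fibres
    (∀ (C : ℝ) (m : ℕ), 0 < m → ∃ C' : ℝ, ∀ (Γ : Type u) [AddCommGroup Γ] [DecidableEq Γ]
      (N : AddSubgroup Γ) (K : ℝ) (A : Finset Γ) (F : Finset N) (x₀ : Γ),
      A.Nonempty → ((A + A).card : ℝ) ≤ K * A.card → (∀ y ∈ F, x₀ + (y : Γ) ∈ A) →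
      (A.card : ℝ) ≤ C * K ^ C * (F.card * (QuotientAddGroup.mk' N '' (A : Set Γ)).ncard) →
      -- (a) from the set to the fibre
      (Concl C K A → Concl C' K F) ∧
      -- (b) from the fibre to the set
      ((∃ t : Γ, (A.card : ℝ) ≤ C * K ^ C * ({a : Γ | a ∈ A ∧ m • a - t ∈ N}.ncard : ℝ)) →
        Concl C K F ∨ Weak C K F → Concl C' K A)) := by
  refine ⟨isogeny, fun C m hm => ?_⟩
  obtain ⟨C₁, hC₁⟩ := fibre_of_set.{u} C
  obtain ⟨C₂, hC₂⟩ := set_of_fibre.{u} C m hm
  obtain ⟨C₃, hC₃⟩ := set_of_weak_fibre.{u} C m hm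
  obtain ⟨n₁, -, hn₁, -⟩ := nat_const C₁
  obtain ⟨n₂, -, hn₂, -⟩ := nat_const C₂
  obtain ⟨n₃, -, hn₃, -⟩ := nat_const C₃
  refine ⟨((n₁ + n₂ + n₃ : ℕ) : ℝ), ?_⟩
  intro Γ _ _ N K A F x₀ hA hK hFA hsize
  have hK1 := one_le_K hA hK
  refine ⟨fun h => ?_, ?_⟩
  · exact concl_mono (hn₁.trans (by exact_mod_cast (by omega : n₁ ≤ n₁ + n₂ + n₃))) hK1 (le_refl K)
      (hC₁ Γ N K A F x₀ hA hK hFA hsize h)
  · rintro ⟨t, ht⟩ (h | h)
    · exact concl_mono (hn₂.trans (by exact_mod_cast (by omega : n₂ ≤ n₁ + n₂ + n₃))) hK1
        (le_refl K) (hC₂ Γ N K A F x₀ t hA hK hFA hsize ht h)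
    · exact concl_mono (hn₃.trans (by exact_mod_cast (by omega : n₃ ≤ n₁ + n₂ + n₃))) hK1
        (le_refl K) (hC₃ Γ N K A F x₀ t hA hK hFA hsize ht h)

end Pool.Agent.Results.MP_dd2a7c_co.IsogenyInvariance
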