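import Pool.Agent.H24.SS.Bridge2
set_option autoImplicit false

namespace Pool.Agent.Results.MP_dd2a7c_co.SumsetShape

open Finset
open scoped Pointwise

universe u

/-- `Sums A n m` is the set `nA - mA` of the sums of `n` elements of `A` minus sums of `m` elements
of `A`. -/
def Sums {G : Type*} [AddCommGroup G] (A : Finset G) (n m : ℕ) : Set G :=
  {x | ∃ (u : Fin n → G) (v : Fin m → G), (∀ i, u i ∈ A) ∧ (∀ i, v i ∈ A) ∧
    x = ∑ i, u i - ∑ i, v i}

/-- `FamilySums A n m` is the set `∑ i, (n i A i - m i A i)`: sums, over `i < r`, of a sum of `n i`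
elements of `A i` minus a sum of `m i` elements of `A i`. -/
def FamilySums {G : Type*} [AddCommGroup G] {r : ℕ} (A : Fin r → Finset G) (n m : Fin r → ℕ) :
    Set G :=
  {x | ∃ (u : (i : Fin r) → Fin (n i) → G) (v : (i : Fin r) → Fin (m i) → G),
    (∀ i j, u i j ∈ A i) ∧ (∀ i j, v i j ∈ A i) ∧ x = ∑ i, (∑ j, u i j - ∑ j, v i j)}

/-- the convex hull in `ℝ ^ D` of a set of integer points -/
def Poly {D : ℕ} (X : Finset (Fin D → ℤ)) : Set (Fin D → ℝ) :=
  convexHull ℝ {p | ∃ x ∈ X, p = fun i => (x i : ℝ)}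

/-- `Shape X ψ H g n m` is the set of all `∑ i, (n i - m i) g i + ψ x + h`, where `h ∈ H` and `x` is
an integer point of the polytope `∑ i, (n i P i - m i P i)`, `P i = Poly (X i)`. -/
def Shape {G : Type*} [AddCommGroup G] {r D : ℕ} (X : Fin r → Finset (Fin D → ℤ))
    (ψ : (Fin D → ℤ) →+ G) (H : AddSubgroup G) (g : Fin r → G) (n m : Fin r → ℕ) : Set G :=
  {y | ∃ x : Fin D → ℤ, (∃ p q : Fin r → Fin D → ℝ, (∀ i, p i ∈ Poly (X i)) ∧
      (∀ i, q i ∈ Poly (X i)) ∧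
      (fun j => (x j : ℝ)) = ∑ i, ((n i : ℝ) • p i - (m i : ℝ) • q i)) ∧
    ∃ h ∈ H, y = ∑ i, ((n i : ℤ) • g i - (m i : ℤ) • g i) + ψ x + h}

/-- the integer points of `s` times the convex hull of the differences `x - y` of elements of the
same `X i` -/
def Dil {r D : ℕ} (X : Fin r → Finset (Fin D → ℤ)) (s : ℕ) : Set (Fin D → ℤ) :=
  {x | (fun i => (x i : ℝ)) ∈ (s : ℝ) • convexHull ℝ
    {z : Fin D → ℝ | ∃ i, ∃ x ∈ X i, ∃ y ∈ X i, z = fun j => ((x j - y j : ℤ) : ℝ)}}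

/-- **The shape of the iterated sumsets of sets of small doubling.** For every `ε ∈ (0, 1]` there
is `C` such that for all finite nonempty sets `A` with `|A + A| ≤ K |A|` in an abelian group there
are a partition of `A` into `r ≤ (2K)^C` sets `A i`, an integer `D ≤ 720 log 2K`, finite sets
`0 ∈ X i ⊆ ℤ^D` that together generate `ℤ^D`, elements `g i`, a homomorphism `ψ` from `ℤ^D`, a
finite subgroup `H`, and `N ≤ C (log 2K)^(6+ε)`, with the following properties; `P i` is the convex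
hull of `X i`:
(1) modulo `H`, the set `A i` is equal to `g i + ψ(X i)`;
(2) **for all `n` and `m`** (vectors of length `r`), with sums over `i`,
`∑ (n i A i - m i A i) ⊆ ∑ (n i - m i) g i + ψ(ℤ^D ∩ ∑ (n i P i - m i P i)) + H`
`  ⊆ ∑ (n i A i - m i A i) + N (A - A)`;
(3) in particular `nA - mA ⊆ S ⊆ nA - mA + N (A - A)` for the union `S` of the sets in the middle
over all vectors with sums `n` and `m`;
(4) `ψ` is injective modulo `H` on the integer points of `2 (D + 1)` times the convex hull of all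
`X i - X i`, and the product of their number and of `|H|` is at most `exp (C (log 2K)^(1+ε)) |A|`. -/
theorem result : ∀ ε : ℝ, 0 < ε → ε ≤ 1 → ∃ C : ℝ, ∀ (Γ : Type u) [AddCommGroup Γ] [DecidableEq Γ]
    (K : ℝ) (A : Finset Γ), A.Nonempty → ((A + A).card : ℝ) ≤ K * A.card →
    ∃ (N D r : ℕ) (X : Fin r → Finset (Fin D → ℤ)) (ψ : (Fin D → ℤ) →+ Γ) (H : AddSubgroup Γ)
      (g : Fin r → Γ) (A' : Fin r → Finset Γ),
      (N : ℝ) ≤ C * Real.log (2 * K) ^ (6 + ε) ∧ (D : ℝ) ≤ 720 * Real.log (2 * K) ∧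
      (r : ℝ) ≤ (2 * K) ^ C ∧ (∀ a, a ∈ A ↔ ∃ i, a ∈ A' i) ∧
      (∀ i j, i ≠ j → Disjoint (A' i) (A' j)) ∧ Finite H ∧
      (∀ i, 0 ∈ X i) ∧ AddSubgroup.closure {x : Fin D → ℤ | ∃ i, x ∈ X i} = ⊤ ∧
      -- (1)
      (∀ i, (∀ a ∈ A' i, ∃ x ∈ X i, a - (g i + ψ x) ∈ H) ∧
        ∀ x ∈ X i, ∃ a ∈ A' i, a - (g i + ψ x) ∈ H) ∧
      -- (2)
      (∀ n m : Fin r → ℕ, FamilySums A' n m ⊆ Shape X ψ H g n m ∧
        Shape X ψ H g n m ⊆ FamilySums A' n m + Sums A N N) ∧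
      -- (3)
      (∀ n m : ℕ, (∀ y ∈ Sums A n m, ∃ ν μ : Fin r → ℕ, ∑ i, ν i = n ∧ ∑ i, μ i = m ∧
          y ∈ Shape X ψ H g ν μ) ∧
        ∀ ν μ : Fin r → ℕ, ∑ i, ν i = n → ∑ i, μ i = m →
          Shape X ψ H g ν μ ⊆ Sums A n m + Sums A N N) ∧
      -- (4)
      (∀ x ∈ Dil X (2 * (D + 1)), ∀ y ∈ Dil X (2 * (D + 1)), ψ x - ψ y ∈ H → x = y) ∧
      (((Dil X (2 * (D + 1))).ncard * Nat.card H : ℕ) : ℝ) ≤
        Real.exp (C * Real.log (2 * K) ^ (1 + ε)) * A.card := by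
  intro ε hε hε1
  have hε3 : 0 < ε / 3 := by positivity
  have hε31 : ε / 3 ≤ 1 := by linarith
  set a : ℝ := (60000000 / (ε / 3)) ^ 3 * ((10 : ℝ) ^ 8) ^ (2 + ε / 3) with ha
  set b : ℝ := 500000 / (ε / 3) * ((10 : ℝ) ^ 8) ^ (ε / 3) with hb
  set c : ℝ := 720 / (ε / 3) with hc
  have ha0 : 0 ≤ a := by positivity
  have hb0 : 0 ≤ b := by positivity
  have hc0 : 0 ≤ c := by positivity
  refine ⟨a + b + c, ?_⟩
  intro Γ _ _ K A hA hK
  have hApos : (0 : ℝ) < A.card := by exact_mod_cast hA.card_pos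
  have hK1 : 1 ≤ K := by
    have h1 : (A.card : ℝ) ≤ (A + A).card := by
      exact_mod_cast Finset.card_le_card_add_right hA
    nlinarith
  have hκ : 0 < Real.log (2 * K) := Real.log_pos (by linarith)
  obtain ⟨N, D, r, X, ψ, H, g, A', cl, hN, hD, hr, hA', hH, h0X, hcl, hEX, hXE, hmain, hprop, hvol⟩ :=
    H24.SS.main2 hε3 hε31 hA hK
  have hpow : ∀ s : ℝ, (((10000 * Real.log (2 * K)) ^ 2) * Real.log (2 * K)) ^ s =
      ((10 : ℝ) ^ 8) ^ s * Real.log (2 * K) ^ (3 * s) := by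
    intro s
    have h1 : ((10000 * Real.log (2 * K)) ^ 2) * Real.log (2 * K) =
        (10 : ℝ) ^ 8 * Real.log (2 * K) ^ (3 : ℕ) := by ring
    rw [h1, Real.mul_rpow (by positivity) (by positivity), ← Real.rpow_natCast, ← Real.rpow_natCast,
      ← Real.rpow_mul hκ.le]
    norm_num
  have hpoly : ∀ i, Poly (X i) = convexHull ℝ (H24.SS.re '' (X i : Set (Fin D → ℤ))) := by
    intro i
    rw [Poly]
    congr 1
    ext p
    constructor
    · rintro ⟨x, hx, rfl⟩; exact ⟨x, hx, rfl⟩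
    · rintro ⟨x, hx, rfl⟩; exact ⟨x, hx, rfl⟩
  have hdil : ∀ s : ℕ, Dil X s = {x : Fin D → ℤ | H24.SS.re x ∈ (s : ℝ) • H24.SS.Body X} := by
    intro s
    rfl
  have hfs : ∀ n m, FamilySums A' n m = H24.SS.FSums A' n m := fun n m => rfl
  have hss : ∀ n m, Sums A n m = H24.SS.Sums A n m := fun n m => rfl
  -- the two inclusions
  have hpt : ∀ i, ∀ e ∈ A' i, ∃ x ∈ X i, ∃ h ∈ H, e = g i + ψ x + h := by
    intro i e he
    obtain ⟨x, hx, hh⟩ := hEX i e he
    exact ⟨x, hx, _, hh, by abel⟩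
  have hincl1 : ∀ n m : Fin r → ℕ, FamilySums A' n m ⊆ Shape X ψ H g n m := by
    rintro n m y ⟨u, v, hu, hv, rfl⟩
    choose p hpX k hk hpk using hpt
    have hmemP : ∀ i, ∀ x ∈ X i, (fun j => (x j : ℝ)) ∈ Poly (X i) := fun i x hx =>
      subset_convexHull ℝ _ ⟨x, hx, rfl⟩
    have hsumP : ∀ i (l : ℕ) (f : Fin l → (Fin D → ℤ)), (∀ j, f j ∈ X i) →
        ∃ q ∈ Poly (X i), (fun j => ((∑ k, f k) j : ℝ)) = (l : ℝ) • q := by
      intro i l
      have hconv : Convex ℝ (Poly (X i)) := convex_convexHull ℝ _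
      induction l with
      | zero =>
        intro f _
        refine ⟨_, hmemP i 0 (h0X i), ?_⟩
        ext j
        simp
      | succ l ih =>
        intro f hf
        obtain ⟨q, hq, hq'⟩ := ih (fun i => f i.succ) (fun i => hf _)
        have h2 := hmemP i _ (hf 0)
        have hl : (0 : ℝ) < (l : ℝ) + 1 := by positivity
        refine ⟨_, hconv h2 hq (a := 1 / ((l : ℝ) + 1)) (b := l / ((l : ℝ) + 1)) (by positivity)
          (by positivity) (by field_simp; ring), ?_⟩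
        rw [Fin.sum_univ_succ]
        ext j
        have h3 := congrFun hq' j
        simp only [Pi.smul_apply, smul_eq_mul, Pi.add_apply] at h3 ⊢
        push_cast
        rw [h3]
        field_simp
    have hP : ∀ i, ∃ q ∈ Poly (X i), (fun j => ((∑ k, p i (u i k) (hu i k)) j : ℝ)) = (n i : ℝ) • q :=
      fun i => hsumP i (n i) (fun k => p i (u i k) (hu i k)) (fun k => hpX _ _ _)
    have hQ : ∀ i, ∃ q ∈ Poly (X i), (fun j => ((∑ k, p i (v i k) (hv i k)) j : ℝ)) = (m i : ℝ) • q :=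
      fun i => hsumP i (m i) (fun k => p i (v i k) (hv i k)) (fun k => hpX _ _ _)
    choose P hPP hPe using hP
    choose Q hQQ hQe using hQ
    refine ⟨∑ i, (∑ j, p i (u i j) (hu i j) - ∑ j, p i (v i j) (hv i j)),
      ⟨P, Q, hPP, hQQ, ?_⟩, ∑ i, (∑ j, k i (u i j) (hu i j) - ∑ j, k i (v i j) (hv i j)),
      H.sum_mem fun i _ => H.sub_mem (H.sum_mem fun j _ => hk _ _ _) (H.sum_mem fun j _ => hk _ _ _),
      ?_⟩
    · have h1 : ∀ i, (n i : ℝ) • P i - (m i : ℝ) • Q i =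
          fun j => (((∑ k, p i (u i k) (hu i k) - ∑ k, p i (v i k) (hv i k)) : Fin D → ℤ) j : ℝ) := by
        intro i
        rw [← hPe i, ← hQe i]
        ext j
        simp
      simp only [h1]
      ext j
      simp only [Finset.sum_apply, Int.cast_sum]
    · have h4 : ∀ (i : Fin r) (l : ℕ) (w : Fin l → Γ) (hw : ∀ j, w j ∈ A' i), ∑ j, w j =
          (l : ℤ) • g i + ψ (∑ j, p i (w j) (hw j)) + ∑ j, k i (w j) (hw j) := by
        intro i l w hw
        have h5 : ∑ j, w j = ∑ j, (g i + ψ (p i (w j) (hw j)) + k i (w j) (hw j)) :=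
          Finset.sum_congr rfl fun j _ => hpk _ _ _
        rw [h5, Finset.sum_add_distrib, Finset.sum_add_distrib, map_sum, Finset.sum_const,
          Finset.card_univ, Fintype.card_fin, natCast_zsmul]
      rw [map_sum, ← Finset.sum_add_distrib, ← Finset.sum_add_distrib]
      refine Finset.sum_congr rfl fun i _ => ?_
      rw [h4 i (n i) (u i) (hu i), h4 i (m i) (v i) (hv i), map_sub]
      abel
  have hincl2 : ∀ n m : Fin r → ℕ, Shape X ψ H g n m ⊆ FamilySums A' n m + Sums A N N := by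
    rintro n m y ⟨x, ⟨p, q, hp, hq, hx⟩, h, hh, rfl⟩
    obtain ⟨y, hy, z, hz, hyz⟩ := hmain n m x
      ⟨p, q, fun i => by rw [← hpoly i]; exact hp i, fun i => by rw [← hpoly i]; exact hq i, hx⟩ h hh
    exact Set.mem_add.2 ⟨y, hy, z, hz, hyz.symm⟩
  refine ⟨N, D, r, X, ψ, H, g, A', ?_, hD, ?_, ?_, ?_, hH, h0X, hcl, fun i => ⟨hEX i, hXE i⟩,
    fun n m => ⟨hincl1 n m, hincl2 n m⟩, ?_, ?_, ?_⟩
  · rw [hpow] at hN
    have h1 : (3 : ℝ) * (2 + ε / 3) = 6 + ε := by ring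
    rw [h1, ← mul_assoc] at hN
    refine hN.trans ?_
    gcongr
    linarith
  · refine hr.trans ?_
    gcongr
    · linarith
    · linarith
  · intro a
    constructor
    · intro h; exact ⟨cl a, (hA' a _).2 ⟨h, rfl⟩⟩
    · rintro ⟨i, hi⟩; exact ((hA' a i).1 hi).1
  · intro i j hij
    rw [Finset.disjoint_left]
    intro a hai haj
    exact hij (((hA' a i).1 hai).2.symm.trans ((hA' a j).1 haj).2)
  · intro n m
    constructor
    · intro y hy
      obtain ⟨ν, μ, h1, h2, h3⟩ := H24.SS.split_sums A A' cl (fun a ha => (hA' a _).2 ⟨ha, rfl⟩) hy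
      exact ⟨ν, μ, h1, h2, hincl1 ν μ h3⟩
    · rintro ν μ h1 h2 y hy
      obtain ⟨z, hz, w, hw, rfl⟩ := Set.mem_add.1 (hincl2 ν μ hy)
      have h3 := H24.SS.merge_sums A A' (fun i a ha => ((hA' a i).1 ha).1) ν μ hz
      rw [h1, h2] at h3
      exact Set.mem_add.2 ⟨z, h3, w, hw, rfl⟩
  · intro x hx y hy hxy
    rw [hdil] at hx hy
    exact hprop x y hx hy hxy
  · rw [hdil]
    refine hvol.trans ?_
    rw [hpow]
    have h1 : (3 : ℝ) * (ε / 3) = ε := by ring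
    rw [h1]
    gcongr ?_ * _
    apply Real.exp_le_exp.2
    have h2 : 500000 / (ε / 3) * Real.log (2 * K) * (((10 : ℝ) ^ 8) ^ (ε / 3) *
        Real.log (2 * K) ^ ε) = b * Real.log (2 * K) ^ (1 + ε) := by
      rw [Real.rpow_add hκ, Real.rpow_one, hb]; ring
    rw [h2]
    gcongr
    linarith

end Pool.Agent.Results.MP_dd2a7c_co.SumsetShape
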